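import Pool.Agent.H98.RFT.Targets3

/-!
Row GPF of the board rft_modules: expectations of shifted functions.
-/

set_option autoImplicit false

noncomputable section

open MeasureTheory ProbabilityTheory

namespace Pool.Agent.H65.RFT

open Pool.Agent.H98.RFC Pool.Agent.H98.RFZ Pool.Agent.H98.RFT

namespace GPF

theorem gam_prob : IsProbabilityMeasure gam := by
  unfold gam
  infer_instance

/-- The density. -/
def den (V : Finset Site) (s : ℝ) (η : Site → ℝ) : ℝ :=
  Real.exp (s * ∑ x ∈ V, η x - s ^ 2 * (V.card : ℝ) / 2)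

theorem den_meas (V : Finset Site) (s : ℝ) : Measurable (den V s) := by
  unfold den
  fun_prop

theorem den_pos (V : Finset Site) (s : ℝ) (η : Site → ℝ) : 0 < den V s η := Real.exp_pos _

theorem den_int (hCM : Z_CM) (V : Finset Site) (s : ℝ) : ∫ η, den V s η ∂gam = 1 := by
  have := gam_prob
  have h := hCM V s (fun _ => 1) measurable_const ⟨1, fun _ => by simp⟩
  simp only [one_mul, integral_const, probReal_univ, smul_eq_mul, mul_one] at h
  exact h.symm

theorem den_integrable (hCM : Z_CM) (V : Finset Site) (s : ℝ) : Integrable (den V s) gam :=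
  Integrable.of_integral_ne_zero (by rw [den_int hCM]; exact one_ne_zero)

theorem den_sq (V : Finset Site) (s : ℝ) (η : Site → ℝ) :
    den V s η ^ 2 = Real.exp (s ^ 2 * (V.card : ℝ)) * den V (2 * s) η := by
  unfold den
  rw [← Real.exp_nat_mul, ← Real.exp_add]
  congr 1
  push_cast
  ring

end GPF

open GPF

theorem pf_GPF (hCM : Z_CM) : D_GPF := by
  intro V s f hf h01
  have := gam_prob
  have h1 : ∫ η, f (shf V s η) ∂gam = ∫ η, f η * den V s η ∂gam :=
    hCM V s f hf ⟨1, fun η => by rw [abs_of_nonneg (h01 η).1]; exact (h01 η).2⟩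
  have hIf : Integrable f gam := by
    refine Integrable.mono' (integrable_const (1 : ℝ)) hf.aestronglyMeasurable ?_
    refine Filter.Eventually.of_forall fun η => ?_
    rw [Real.norm_eq_abs, abs_of_nonneg (h01 η).1]
    exact (h01 η).2
  have hI2 : Integrable (fun η => den V s η ^ 2) gam := by
    simp only [den_sq]
    exact (den_integrable hCM V (2 * s)).const_mul _
  have hE2 : ∫ η, den V s η ^ 2 ∂gam = Real.exp (s ^ 2 * (V.card : ℝ)) := by
    simp only [den_sq]
    rw [integral_const_mul, den_int hCM, mul_one]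
  have hIfd : Integrable (fun η => f η * den V s η) gam := by
    refine Integrable.mono' (den_integrable hCM V s)
      (hf.mul (den_meas V s)).aestronglyMeasurable ?_
    refine Filter.Eventually.of_forall fun η => ?_
    rw [Real.norm_eq_abs, abs_of_nonneg (mul_nonneg (h01 η).1 (den_pos V s η).le)]
    calc f η * den V s η ≤ 1 * den V s η :=
          mul_le_mul_of_nonneg_right (h01 η).2 (den_pos V s η).le
      _ = den V s η := one_mul _
  have key : ∀ l : ℝ, 0 < l → 2 * (∫ η, f (shf V s η) ∂gam) ≤
      l * (∫ η, f η ∂gam) + l⁻¹ * Real.exp (s ^ 2 * (V.card : ℝ)) := by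
    intro l hl
    rw [h1, ← hE2, ← integral_const_mul, ← integral_const_mul, ← integral_const_mul,
      ← integral_add (hIf.const_mul _) (hI2.const_mul _)]
    refine integral_mono (hIfd.const_mul _) ((hIf.const_mul _).add (hI2.const_mul _)) fun η => ?_
    have h4 : f η ^ 2 ≤ f η := by
      nlinarith [(h01 η).1, (h01 η).2]
    have h5 : 0 ≤ l⁻¹ * (l * f η - den V s η) ^ 2 :=
      mul_nonneg (inv_nonneg.2 hl.le) (sq_nonneg _)
    have h6 : l⁻¹ * (l * f η - den V s η) ^ 2 =
        l * (f η) ^ 2 - 2 * (f η * den V s η) + l⁻¹ * den V s η ^ 2 := by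
      field_simp
      ring
    have h7 : l * (f η) ^ 2 ≤ l * f η := mul_le_mul_of_nonneg_left h4 hl.le
    show 2 * (f η * den V s η) ≤ l * f η + l⁻¹ * den V s η ^ 2
    linarith
  set P := ∫ η, f η ∂gam with hPd
  have hP0 : 0 ≤ P := integral_nonneg fun η => (h01 η).1
  set E := Real.exp (s ^ 2 * (V.card : ℝ) / 2) with hE
  have hE0 : 0 < E := Real.exp_pos _
  have hEE : Real.exp (s ^ 2 * (V.card : ℝ)) = E ^ 2 := by
    rw [hE, ← Real.exp_nat_mul]
    congr 1
    push_cast
    ring
  rw [hEE] at key
  rcases hP0.eq_or_lt with h0 | h0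
  · rw [← h0, Real.sqrt_zero, mul_zero]
    by_contra hcon
    push Not at hcon
    have h7 := key (E ^ 2 / (∫ η, f (shf V s η) ∂gam))
      (div_pos (pow_pos hE0 2) hcon)
    rw [← h0, mul_zero, zero_add, inv_div, div_mul_cancel₀ _ (pow_pos hE0 2).ne'] at h7
    linarith
  · have hs : 0 < Real.sqrt P := Real.sqrt_pos.2 h0
    have h7 := key (E / Real.sqrt P) (div_pos hE0 hs)
    have h8 : E / Real.sqrt P * P = E * Real.sqrt P := by
      rw [div_mul_eq_mul_div, div_eq_iff hs.ne', mul_assoc, Real.mul_self_sqrt h0.le]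
    have h9 : (E / Real.sqrt P)⁻¹ * E ^ 2 = E * Real.sqrt P := by
      rw [inv_div]
      field_simp
    rw [h8, h9] at h7
    linarith

end Pool.Agent.H65.RFT
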